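import Pool.Agent.helper56.CY.Spec
import Pool.Agent.helper56.CT.Fin1

/-! Row MAI: the main proposition. -/

set_option autoImplicit false

namespace Pool.Agent.CY
open Finset CT

section
variable {V : Type} [DecidableEq V]

theorem MAI_mem {L : List V} {u : V} {i : Fin 4} : (u, i) ∈ dts L.toFinset ↔ u ∈ L := by
  unfold dts
  simp

theorem MAI_mem' {S : Finset V} {d : V × Fin 4} : d ∈ dts S ↔ d.1 ∈ S := by
  unfold dts
  simp

theorem MAI_perm {L L' : List V} {e : V × Fin 4 → V × Fin 4} (h : L.Perm L') (hnd : L.Nodup)
    (hA : Act (dts L.toFinset) e) : Z (-4) L e = Z (-4) L' e :=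
  fJZ2 V (-4) L L' e h hnd hA.1 fun u hu i => (hA.2 (u, i)).2 (MAI_mem.2 hu)

theorem MAI_act {L L' : List V} {e : V × Fin 4 → V × Fin 4} (h : L.Perm L')
    (hA : Act (dts L.toFinset) e) : Act (dts L'.toFinset) e := by
  rwa [← List.toFinset_eq_of_perm _ _ h]

theorem MAI_e {S : Finset V} {e : V × Fin 4 → V × Fin 4} (hA : Act (dts S) e) {d : V × Fin 4} (hd : d.1 ∈ S) :
    (e d).1 ∈ S := by
  have h1 : e d ≠ d := (hA.2 d).2 (MAI_mem'.2 hd)
  have h2 : e (e d) ≠ e d := by
    rw [hA.1 d]
    exact h1.symm
  exact MAI_mem'.1 ((hA.2 (e d)).1 h2)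

end

/-- One term of the triangle relation. -/
theorem MAI_term (hRDA : RDA_stmt) (hRDE : RDE_stmt) (hRDH : RDH_stmt) {V : Type} [Fintype V] [DecidableEq V]
    {n : ℕ} (IH : ∀ m < n, ∀ (L : List V) (e : V × Fin 4 → V × Fin 4) (c : V × Fin 4 → ℕ), L.length = m → L.Nodup →
      5 ≤ L.length → Act (dts L.toFinset) e → EvCol L.toFinset e c → Hyp L.toFinset c → 32 ∣ Z (-4) L e)
    {R : List V} {e : V × Fin 4 → V × Fin 4} {u v w : V} {i j k : Fin 4 → Fin 4} {c : V × Fin 4 → ℕ} {m : ℕ}
    (hm : m ≠ 0) (hT : TriC R e u v w i j k c m) (hH : Hyp (u :: v :: w :: R).toFinset c) (hR : 4 ≤ R.length)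
    (hn : R.length + 3 = n) : 32 ∣ Z (-4) (v :: R) (red e u w i k) := by
  have hnd := hT.tri.nd
  refine IH (R.length + 1) (by omega) (v :: R) (red e u w i k) (cred c v w j k) (by simp) ?_ (by simp; omega)
    (hRDA V R e u v w i j k hT.tri) (hRDE V R e u v w i j k c m hT) (hRDH V R e u v w i j k c m hT hm hH)
  have h1 : (v :: w :: R).Nodup := (List.nodup_cons.1 hnd).2
  have h2 := List.nodup_cons.1 h1
  exact List.nodup_cons.2 ⟨fun h => h2.1 (List.mem_cons_of_mem _ h), (List.nodup_cons.1 h2.2).2⟩

theorem MAI (hSPL : SPL_stmt) (hLOP : LOP_stmt) (hF5 : F5_stmt) (hRDA : RDA_stmt) (hRDE : RDE_stmt)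
    (hRDH : RDH_stmt) (hROT : ROT_stmt) (hSHT : SHT_stmt) (hBAS : BAS_stmt) (hTRI : TRI_stmt) : MAI_stmt := by
  intro V _ _
  have main : ∀ n : ℕ, ∀ (L : List V) (e : V × Fin 4 → V × Fin 4) (c : V × Fin 4 → ℕ), L.length = n → L.Nodup →
      5 ≤ L.length → Act (dts L.toFinset) e → EvCol L.toFinset e c → Hyp L.toFinset c → 32 ∣ Z (-4) L e := by
    intro n
    induction n using Nat.strong_induction_on with
    | _ n IH =>
      intro L e c hLn hnd h5 hA hE hH
      have hact : ∀ u ∈ L, ∀ i, e (u, i) ≠ (u, i) := fun u hu i => (hA.2 (u, i)).2 (MAI_mem.2 hu)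
      -- a loop
      by_cases hloop : ∃ u ∈ L, ∃ i, (e (u, i)).1 = u
      · obtain ⟨u, hu, i, hi⟩ := hloop
        have hp : L.Perm (u :: L.erase u) := List.perm_cons_erase hu
        rw [MAI_perm hp hnd hA]
        have he : e (u, i) = (u, (e (u, i)).2) := Prod.ext hi rfl
        refine hLOP V (L.erase u) e u i (e (u, i)).2 (hp.nodup_iff.1 hnd) ?_ (MAI_act hp hA) ?_ he
        · rw [List.length_erase_of_mem hu]
          omega
        · intro h
          apply hact u hu i
          rw [he, ← h]
      push Not at hloop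
      -- a double strand
      by_cases hdbl : ∃ u ∈ L, ∃ i i', (e (u, i)).1 = (e (u, i')).1 ∧ i ≠ i'
      · obtain ⟨u, hu, i, i', hii, hne⟩ := hdbl
        have hw : (e (u, i)).1 ∈ L := by
          have := MAI_e hA (d := (u, i)) (List.mem_toFinset.2 hu)
          exact List.mem_toFinset.1 this
        have hwu : (e (u, i)).1 ≠ u := hloop u hu i
        have hp1 : L.Perm (u :: L.erase u) := List.perm_cons_erase hu
        have hw' : (e (u, i)).1 ∈ L.erase u := (List.mem_erase_of_ne hwu).2 hw
        have hp2 : (L.erase u).Perm ((e (u, i)).1 :: (L.erase u).erase (e (u, i)).1) := List.perm_cons_erase hw'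
        have hp : L.Perm (u :: (e (u, i)).1 :: (L.erase u).erase (e (u, i)).1) := hp1.trans (hp2.cons u)
        rw [MAI_perm hp hnd hA]
        refine fD4 V ((L.erase u).erase (e (u, i)).1) e u (e (u, i)).1 i i' (e (u, i)).2 (e (u, i')).2
          (hp.nodup_iff.1 hnd) hne ?_ ?_ (MAI_act hp hA) rfl (Prod.ext hii.symm rfl)
        · intro h
          have h1 : e (u, i) = e (u, i') := Prod.ext hii h
          have h2 : (u, i) = (u, i') := by rw [← hA.1 (u, i), h1, hA.1]
          exact hne (Prod.ext_iff.1 h2).2
        · rw [List.length_erase_of_mem hw', List.length_erase_of_mem hu]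
          omega
      push Not at hdbl
      have hS : Smp L.toFinset e := by
        refine ⟨fun u hu i => hloop u (List.mem_toFinset.1 hu) i, fun u hu i j h => ?_⟩
        exact hdbl u (List.mem_toFinset.1 hu) i j h
      by_cases h3 : Wt L.toFinset c = L.toFinset ∨ ∃ d ∈ dts L.toFinset, d.1 ∈ Wt L.toFinset c ∧ c d = 0
      · -- a short class
        obtain ⟨m, hm0, hmd, hm7⟩ := hSHT V L.toFinset c hH h3
        have hcard : L.toFinset.card = L.length := List.toFinset_card_of_nodup hnd
        by_cases h6 : L.length ≤ 6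
        · exact (hBAS V L.toFinset e c (by omega) hA hS hE hH).elim
        · obtain ⟨u, v, w, R, i, j, k, hp, hT⟩ := hTRI V L e c m hnd hA hS hE hmd hm7
          have hlen : L.length = R.length + 3 := by
            rw [hp.length_eq]
            simp
          have hH1 : Hyp (u :: v :: w :: R).toFinset c := by
            rwa [← List.toFinset_eq_of_perm _ _ hp]
          have e1 : (u :: v :: w :: R).toFinset = (v :: w :: u :: R).toFinset := by
            ext x
            simp only [List.mem_toFinset, List.mem_cons]
            tauto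
          have e2 : (v :: w :: u :: R).toFinset = (w :: u :: v :: R).toFinset := by
            ext x
            simp only [List.mem_toFinset, List.mem_cons]
            tauto
          have hH2 : Hyp (v :: w :: u :: R).toFinset c := by rwa [← e1]
          have hH3 : Hyp (w :: u :: v :: R).toFinset c := by rwa [← e2]
          have hT2 := hROT V R e u v w i j k c m hT
          have hT3 := hROT V R e v w u j k i c m hT2
          have hR : 4 ≤ R.length := by omega
          have hRn : R.length + 3 = n := by omega
          have t1 := MAI_term hRDA hRDE hRDH IH hm0 hT hH1 hR hRn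
          have t2 := MAI_term hRDA hRDE hRDH IH hm0 hT2 hH2 hR hRn
          have t3 := MAI_term hRDA hRDE hRDH IH hm0 hT3 hH3 hR hRn
          have h5' := hF5 V R e u v w i j k hT.tri (by omega)
          rw [MAI_perm hp hnd hA]
          have := dvd_add h5' (dvd_add (dvd_add t1 t2) t3)
          rwa [sub_add_cancel] at this
      · -- two separate parts
        push Not at h3
        obtain ⟨hne, hnz⟩ := h3
        have hsub : Wt L.toFinset c ⊆ L.toFinset := Finset.filter_subset _ _
        have hp : L.Perm ((Wt L.toFinset c).toList ++ (L.toFinset \ Wt L.toFinset c).toList) := by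
          rw [List.perm_ext_iff_of_nodup hnd]
          · intro a
            rw [List.mem_append, Finset.mem_toList, Finset.mem_toList, Finset.mem_sdiff, List.mem_toFinset]
            constructor
            · intro h
              by_cases h' : a ∈ Wt L.toFinset c
              · exact Or.inl h'
              · exact Or.inr ⟨h, h'⟩
            · rintro (h | h)
              · exact List.mem_toFinset.1 (hsub h)
              · exact h.1
          · refine List.Nodup.append (Finset.nodup_toList _) (Finset.nodup_toList _) ?_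
            intro a h1 h2
            rw [Finset.mem_toList] at h1 h2
            exact (Finset.mem_sdiff.1 h2).2 h1
        rw [MAI_perm hp hnd hA]
        refine hSPL V _ _ e (hp.nodup_iff.1 hnd) ?_ ?_ (MAI_act hp hA) ?_
        · rw [ne_eq, Finset.toList_eq_nil]
          have h1 : (((dts L.toFinset).image c).erase 0).Nonempty := by
            rw [← Finset.card_pos]
            exact hH.2.1
          obtain ⟨a, ha⟩ := h1
          obtain ⟨ha0, ha1⟩ := Finset.mem_erase.1 ha
          obtain ⟨d, hd, hda⟩ := Finset.mem_image.1 ha1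
          refine Finset.Nonempty.ne_empty ⟨d.1, ?_⟩
          unfold Wt
          refine Finset.mem_filter.2 ⟨MAI_mem'.1 hd, d.2, ?_⟩
          change c d ≠ 0
          rw [hda]
          exact ha0
        · rw [ne_eq, Finset.toList_eq_nil, Finset.sdiff_eq_empty_iff_subset]
          exact fun h => hne (Finset.Subset.antisymm hsub h)
        · intro d hd
          rw [MAI_mem', List.mem_toFinset, Finset.mem_toList] at hd ⊢
          have hdS : d.1 ∈ L.toFinset := hsub hd
          have h1 : c d ≠ 0 := hnz d (MAI_mem'.2 hdS) hd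
          unfold Wt
          refine Finset.mem_filter.2 ⟨MAI_e hA hdS, (e d).2, ?_⟩
          change c (e d) ≠ 0
          rw [hE.1 d]
          exact h1
  intro L e c hnd h5 hA hE hH
  exact main L.length L e c rfl hnd h5 hA hE hH

end Pool.Agent.CY
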